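import Mathlib
import Pool.Agent.R387.CW.Hit

/-!
# A polynomial-size black-box test for generic rigidity of graphs of bounded cutwidth

For all fixed `d`, `w`, `t` there is a number `s` such that for every `n` the explicit set
`placements d n t s` of at most `(nd + 1) ^ (t (d + 1) + 3 s)` integer placements of `n` vertices in
`ℝ^d`, whose coordinates have `O(nd log(nd) + log s)` bits, has the following property: every graph
on these vertices which has cutwidth at most `w` after the deletion of some `t` vertices attains its
generic rank in the `d`-dimensional rigidity matroid at one of these placements. So there is a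
deterministic polynomial-time test for generic rigidity in `ℝ^3` for these graphs, which consists in
the computation of the ranks of polynomially many integer matrices and which neither finds nor uses
a linear layout of the graph or the vertices to be deleted.
-/

set_option autoImplicit false

namespace Pool.Agent.Results.MP_37c7bf_co.BoundedCutwidth

open Pool.Agent.R387.CW Pool.Agent.H283R2.DR Pool.Agent.H789R5

theorem rank_le_genRank {n d : ℕ} (G : SimpleGraph (Fin n)) (p : Fin n → Fin d → ℝ) :
    (rigidityMatrix G p).rank ≤ genRank d G := by
  unfold genRank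
  refine le_csSup ⟨n * d, ?_⟩ ⟨p, rfl⟩
  rintro _ ⟨p', rfl⟩
  refine (Matrix.rank_le_card_width _).trans ?_
  rw [Fintype.card_prod, Fintype.card_fin, Fintype.card_fin]

/-- **Polynomial-size black-box test for generic rigidity, for graphs of bounded cutwidth.**
For all `d ≥ 1`, `w`, `t` there is `s` such that for all `n`: the set `placements d n t s` consists
of at most `(nd + 1) ^ (t (d + 1) + 3 s)` integer placements of `n` vertices in `ℝ^d`, with
coordinates of absolute value at most `(s + 1) (nd) ^ (2nd + 1)`, and for every graph `G` on the
`n` vertices which has cutwidth at most `w` after the deletion of at most `t` vertices, the rank of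
`G` in the generic `d`-dimensional rigidity matroid is the largest rank of the rigidity matrix of
`G` at these placements; for `n ≥ d`, the graph is generically rigid in `ℝ^d` if and only if the
rank is at least `dn - d (d + 1) / 2` at one of them. -/
theorem result (d w t : ℕ) (hd : 1 ≤ d) : ∃ s : ℕ, ∀ n : ℕ,
    (placements d n t s).card ≤ (n * d + 1) ^ (t * (d + 1) + 3 * s) ∧
    (∀ q ∈ placements d n t s, ∀ v i,
      |q v i| ≤ (((s + 1) * (n * d) ^ (2 * (n * d) + 1) : ℕ) : ℤ)) ∧
    ∀ G : SimpleGraph (Fin n), HubCutwidthLE t w G →
      (∀ q ∈ placements d n t s,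
        (rigidityMatrix G (fun v i => (q v i : ℝ))).rank ≤ genRank d G) ∧
      (∃ q ∈ placements d n t s,
        (rigidityMatrix G (fun v i => (q v i : ℝ))).rank = genRank d G) ∧
      (d ≤ n → (GenRigid d G ↔ ∃ q ∈ placements d n t s,
        d * n ≤ (rigidityMatrix G (fun v i => (q v i : ℝ))).rank + d * (d + 1) / 2)) := by
  classical
  refine ⟨Pool.Agent.W943.Nis.sd ℂ (width d t w) 1, fun n =>
    ⟨placements_card hd n t _, fun q hq v i => placements_abs hq v i, fun G hG => ?_⟩⟩
  obtain ⟨p, hp⟩ := exists_mg (Fin n) d
  have hgr := genRank_add hp G
  have hrp := rank_add_mo G p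
  rw [Fintype.card_fin] at hgr hrp
  obtain ⟨q, hq, hqr⟩ := exists_placement hG p
  have hqe : (rigidityMatrix G (fun v i => (q v i : ℝ))).rank = genRank d G := by
    have := rank_le_genRank G (fun v i => (q v i : ℝ))
    omega
  refine ⟨fun q _ => rank_le_genRank G _, ⟨q, hq, hqe⟩, fun hdn => ?_⟩
  rw [genRigid_iff hp (by rw [Fintype.card_fin]; exact hdn)]
  constructor
  · intro h
    exact ⟨q, hq, by omega⟩
  · rintro ⟨q', -, hq'⟩
    have := rank_le_genRank G (fun v i => (q' v i : ℝ))
    omega

end Pool.Agent.Results.MP_37c7bf_co.BoundedCutwidth
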