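import Mathlib
import Pool.Agent.R487.Rig.Final

/-!
# Generic rigidity in space of strong products

The strong product of any two connected finite graphs with at least three vertices each has the
generic rank `min (|E|, 3 n - 6)` in `ℝ³`, and it is generically rigid in `ℝ³` unless both factors
are trees and one of them has exactly three vertices (the only case with too few edges). Neither of
the factors has to be rigid and there is no restriction on degrees.
-/

set_option autoImplicit false

namespace Pool.Agent.Results.MP_37c7bf_co.StrongProducts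

open Pool.Agent.H789R5 Pool.Agent.H283R2.DR

/-- The strong product of two graphs: two different pairs are adjacent if in each of the two
coordinates they are equal or adjacent. -/
def strongProduct {α β : Type} (G₁ : SimpleGraph α) (G₂ : SimpleGraph β) :
    SimpleGraph (α × β) where
  Adj x y := x ≠ y ∧ (x.1 = y.1 ∨ G₁.Adj x.1 y.1) ∧ (x.2 = y.2 ∨ G₂.Adj x.2 y.2)
  symm := ⟨fun _ _ h => ⟨h.1.symm, h.2.1.imp Eq.symm SimpleGraph.Adj.symm,
    h.2.2.imp Eq.symm SimpleGraph.Adj.symm⟩⟩
  loopless := ⟨fun _ h => h.1 rfl⟩

/-- Let `G₁` and `G₂` be connected finite graphs with at least three vertices each. The generic rank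
of the strong product of `G₁` and `G₂` in `ℝ³` is the minimum of the number of its edges and
`3 n - 6`, where `n` is its number of vertices. The strong product is generically rigid in `ℝ³` if
and only if it is not the case that both `G₁` and `G₂` are trees and one of them has exactly three
vertices; equivalently, if and only if it has at least `3 n - 6` edges. -/
theorem result (α β : Type) [Fintype α] [Fintype β] (G₁ : SimpleGraph α) (G₂ : SimpleGraph β)
    (h1 : G₁.Connected) (h2 : G₂.Connected)
    (ha : 3 ≤ Fintype.card α) (hb : 3 ≤ Fintype.card β) :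
    genRank 3 (strongProduct G₁ G₂) =
      min (strongProduct G₁ G₂).edgeSet.ncard (3 * Fintype.card (α × β) - 6) ∧
    (GenRigid 3 (strongProduct G₁ G₂) ↔
      ¬ (G₁.IsTree ∧ G₂.IsTree ∧ (Fintype.card α = 3 ∨ Fintype.card β = 3))) ∧
    (GenRigid 3 (strongProduct G₁ G₂) ↔
      3 * Fintype.card (α × β) ≤ (strongProduct G₁ G₂).edgeSet.ncard + 6) := by
  have e : strongProduct G₁ G₂ = Pool.Agent.R487.Rig.strong G₁ G₂ := rfl
  rw [e]
  obtain ⟨h, h'⟩ := Pool.Agent.R487.Rig.main h1 h2 ha hb
  refine ⟨h, ?_, ?_⟩
  · rw [h', SimpleGraph.isTree_iff, SimpleGraph.isTree_iff]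
    exact ⟨fun hn ht => hn ⟨ht.1.2, ht.2.1.2, ht.2.2⟩,
      fun hn ht => hn ⟨⟨h1, ht.1⟩, ⟨h2, ht.2.1⟩, ht.2.2⟩⟩
  · refine Pool.Agent.TH409.RG.rigid_iff_of_rank ?_ h
    rw [Fintype.card_prod]
    calc 3 ≤ 3 * 1 := by norm_num
      _ ≤ _ := Nat.mul_le_mul ha (by omega)

end Pool.Agent.Results.MP_37c7bf_co.StrongProducts
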