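import Mathlib
import Pool.Agent.R487.Rig.Two

/-!
# Generic rigidity in space of graphs with a rigid part in which every other vertex has two
neighbours

The exact generic rank in `ℝ³`, and with it a characterization of generic rigidity, of all graphs
`G` with a generically rigid part `R` such that each vertex outside `R` has at least two neighbours
in `R`. The graph `G - R` is arbitrary.

Each vertex with exactly two neighbours in `R` can turn around the line through them. The edges of
`G - R` couple these motions; the coupling is consistent (a motion survives) exactly in the
components in which all vertices have two neighbours in `R` and along each cycle all these pairs of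
neighbours are equal.
-/

set_option autoImplicit false

namespace Pool.Agent.Results.MP_37c7bf_co.TwoNeighboursInRigidPart

open Pool.Agent.H789R5 Pool.Agent.H283R2.DR Pool.Agent.R487.Rig

/-- Let `G` be a finite graph with `n` vertices and `R` a set of at least three vertices which
induces a generically rigid graph in `ℝ³`, such that each vertex outside `R` has at least two
neighbours in `R` (`nb G R v` is the set of the neighbours of `v` in `R`). A component of `G - R`
(a component of the graph `outer G R` of the edges between vertices outside `R`) is bad if each of
its vertices is outside `R` and has exactly two neighbours in `R`, and each of its edges between two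
vertices with different sets of neighbours in `R` is a bridge of `G - R`.

Then the generic rank of `G` in `ℝ³` is `3 n - 6` minus the number of the bad components, and `G` is
generically rigid in `ℝ³` if and only if there is no bad component. -/
theorem result (V : Type) [Fintype V] (G : SimpleGraph V) (R : Finset V) (h3 : 3 ≤ R.card)
    (hR : GenRigid 3 (G.induce (R : Set V))) (hdom : ∀ v ∉ R, 2 ≤ (nb G R v).card) :
    genRank 3 G + 6 + Nat.card {C // IsBad G R C} = 3 * Fintype.card V ∧
    (GenRigid 3 G ↔ ∀ C, ¬ IsBad G R C) := by
  obtain ⟨h, h'⟩ := rank_two h3 hR hdom
  exact ⟨h, h'⟩

end Pool.Agent.Results.MP_37c7bf_co.TwoNeighboursInRigidPart
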